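import Mathlib

set_option autoImplicit false

namespace Pool.Agent.Results.MP_75315a_co.LowerBound

open Finset

/-- The Euclidean plane. -/
abbrev Plane := EuclideanSpace ℝ (Fin 2)

/-- `T` is the vertex set of a non-degenerate triangle of perimeter one. -/
def IsUnitTriangle (T : Finset Plane) : Prop :=
  ∃ a b c : Plane, (T : Set Plane) = {a, b, c} ∧ ¬ Collinear ℝ ({a, b, c} : Set Plane) ∧
    dist a b + dist b c + dist c a = 1

open Classical in
/-- The number of unit-perimeter triangles spanned by `P`, counted as unordered triples. -/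
noncomputable def numUnit (P : Finset Plane) : ℕ := (P.powerset.filter IsUnitTriangle).card

/-- `u n` is the maximum number of unit-perimeter triangles spanned by `n` points of the plane. -/
noncomputable def u (n : ℕ) : ℕ := sSup {m : ℕ | ∃ P : Finset Plane, P.card = n ∧ numUnit P = m}

lemma numUnit_le (P : Finset Plane) : numUnit P ≤ 2 ^ P.card := by
  classical
  unfold numUnit
  exact (card_filter_le _ _).trans (card_powerset P).le

lemma numUnit_mono {P Q : Finset Plane} (h : P ⊆ Q) : numUnit P ≤ numUnit Q := by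
  classical
  unfold numUnit
  exact card_le_card (filter_subset_filter _ (powerset_mono.2 h))

lemma le_u (P : Finset Plane) : numUnit P ≤ u P.card := by
  unfold u
  apply le_csSup
  · refine ⟨2 ^ P.card, ?_⟩
    rintro m ⟨Q, hQ, rfl⟩
    rw [← hQ]
    exact numUnit_le Q
  · exact ⟨P, rfl, rfl⟩

lemma u_mono {m n : ℕ} (h : m ≤ n) : u m ≤ u n := by
  classical
  unfold u
  apply csSup_le
  · obtain ⟨P, -, hP⟩ := Infinite.exists_superset_card_eq (∅ : Finset Plane) m (by simp)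
    exact ⟨_, P, hP, rfl⟩
  · rintro k ⟨P, hP, rfl⟩
    obtain ⟨Q, hPQ, hQ⟩ := Infinite.exists_superset_card_eq P n (by omega)
    exact (numUnit_mono hPQ).trans (hQ ▸ le_u Q)

/-! ### The map -/

/-- In complex notation, `v ↦ v² / (2 (1 + |v|²))`. -/
noncomputable def g (a b : ℝ) : Plane :=
  !₂[(a ^ 2 - b ^ 2) / (2 * (1 + a ^ 2 + b ^ 2)), a * b / (1 + a ^ 2 + b ^ 2)]

lemma dist_eq_of {x y : Plane} {r : ℝ} (hr : 0 ≤ r)
    (h : (x 0 - y 0) ^ 2 + (x 1 - y 1) ^ 2 = r ^ 2) : dist x y = r := by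
  rw [EuclideanSpace.dist_eq, Fin.sum_univ_two, Real.dist_eq, Real.dist_eq, sq_abs, sq_abs, h,
    Real.sqrt_sq hr]

lemma dist_zero_g (a b : ℝ) : dist (0 : Plane) (g a b) = (a ^ 2 + b ^ 2) / (2 * (1 + a ^ 2 + b ^ 2)) := by
  have hN : (1 + a ^ 2 + b ^ 2) ≠ 0 := by positivity
  apply dist_eq_of (by positivity)
  simp only [g, PiLp.zero_apply, PiLp.toLp_apply, Matrix.cons_val_zero, Matrix.cons_val_one]
  field_simp
  ring

lemma dist_g_g {a b c d : ℝ} (hD : (a * d - b * c) ^ 2 = 1) :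
    dist (g a b) (g c d)
      = (2 + a ^ 2 + b ^ 2 + c ^ 2 + d ^ 2) / (2 * (1 + a ^ 2 + b ^ 2) * (1 + c ^ 2 + d ^ 2)) := by
  have hN : (1 + a ^ 2 + b ^ 2) ≠ 0 := by positivity
  have hM : (1 + c ^ 2 + d ^ 2) ≠ 0 := by positivity
  apply dist_eq_of (by positivity)
  simp only [g, PiLp.toLp_apply, Matrix.cons_val_zero, Matrix.cons_val_one]
  field_simp
  linear_combination 4 * (1 + a ^ 2 + b ^ 2) * (1 + c ^ 2 + d ^ 2) * hD

lemma perimeter {a b c d : ℝ} (hD : (a * d - b * c) ^ 2 = 1) :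
    dist (0 : Plane) (g a b) + dist (g a b) (g c d) + dist (g c d) 0 = 1 := by
  have hN : (1 + a ^ 2 + b ^ 2) ≠ 0 := by positivity
  have hM : (1 + c ^ 2 + d ^ 2) ≠ 0 := by positivity
  rw [dist_comm (g c d) 0, dist_zero_g, dist_zero_g, dist_g_g hD]
  field_simp
  ring

lemma not_collinear {a b c d : ℝ} (hD : a * d - b * c ≠ 0) (hI : a * c + b * d ≠ 0) :
    ¬ Collinear ℝ ({0, g a b, g c d} : Set Plane) := by
  intro h
  rw [collinear_iff_of_mem (p₀ := (0 : Plane)) (by simp)] at h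
  obtain ⟨v, hv⟩ := h
  obtain ⟨r, hr⟩ := hv (g a b) (by simp)
  obtain ⟨s, hs⟩ := hv (g c d) (by simp)
  have hN : (1 + a ^ 2 + b ^ 2) ≠ 0 := by positivity
  have hM : (1 + c ^ 2 + d ^ 2) ≠ 0 := by positivity
  have r0 := congrArg (fun z : Plane => z 0) hr
  have r1 := congrArg (fun z : Plane => z 1) hr
  have s0 := congrArg (fun z : Plane => z 0) hs
  have s1 := congrArg (fun z : Plane => z 1) hs
  simp only [g, PiLp.toLp_apply, Matrix.cons_val_zero, Matrix.cons_val_one, vadd_eq_add, add_zero,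
    PiLp.smul_apply, smul_eq_mul] at r0 r1 s0 s1
  have key : (a ^ 2 - b ^ 2) / (2 * (1 + a ^ 2 + b ^ 2)) * (c * d / (1 + c ^ 2 + d ^ 2))
      - a * b / (1 + a ^ 2 + b ^ 2) * ((c ^ 2 - d ^ 2) / (2 * (1 + c ^ 2 + d ^ 2))) = 0 := by
    rw [r0, r1, s0, s1]; ring
  have key2 : (a * d - b * c) * (a * c + b * d) = 0 := by
    field_simp at key
    linear_combination key
  rcases mul_eq_zero.1 key2 with h | h
  · exact hD h
  · exact hI h

lemma g_norm_lt {a b : ℝ} (h : 2 < a ^ 2 + b ^ 2) : 1 / 3 < dist (0 : Plane) (g a b) := by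
  rw [dist_zero_g, lt_div_iff₀ (by positivity)]
  linarith

lemma g_norm_le {a b : ℝ} (h : a ^ 2 + b ^ 2 ≤ 2) : dist (0 : Plane) (g a b) ≤ 1 / 3 := by
  rw [dist_zero_g, div_le_iff₀ (by positivity)]
  linarith

lemma g_pos {a b : ℝ} (h : 0 < a ^ 2 + b ^ 2) : 0 < dist (0 : Plane) (g a b) := by
  rw [dist_zero_g]
  positivity

lemma g_inj {a b c d : ℝ} (ha : 0 ≤ a) (hb : 0 ≤ b) (hc : 0 ≤ c) (hd : 0 ≤ d)
    (h : g a b = g c d) : a = c ∧ b = d := by
  have hN : (1 + a ^ 2 + b ^ 2) ≠ 0 := by positivity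
  have hM : (1 + c ^ 2 + d ^ 2) ≠ 0 := by positivity
  have h1 : dist (0 : Plane) (g a b) = dist 0 (g c d) := by rw [h]
  rw [dist_zero_g, dist_zero_g] at h1
  have h2 := congrArg (fun z : Plane => z 0) h
  simp only [g, PiLp.toLp_apply, Matrix.cons_val_zero] at h2
  have h3 : a ^ 2 + b ^ 2 = c ^ 2 + d ^ 2 := by
    field_simp at h1
    linear_combination h1
  have h4 : a ^ 2 - b ^ 2 = c ^ 2 - d ^ 2 := by
    have : 1 + a ^ 2 + b ^ 2 = 1 + c ^ 2 + d ^ 2 := by linarith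
    rw [this] at h2
    field_simp at h2
    exact h2
  have h5 : a ^ 2 = c ^ 2 := by linarith
  have h6 : b ^ 2 = d ^ 2 := by linarith
  exact ⟨(sq_eq_sq₀ ha hc).1 h5, (sq_eq_sq₀ hb hd).1 h6⟩

/-! ### The configuration -/

lemma triangle {x m b : ℕ} (hx : 1 ≤ x) (hm : 1 ≤ m) (hb : 1 ≤ b) :
    IsUnitTriangle {0, g x ((m * x + b : ℕ) : ℝ), g (1 / (b : ℝ)) ((m : ℝ) / b)} := by
  have hx' : (0 : ℝ) < x := by exact_mod_cast hx
  have hm' : (0 : ℝ) < m := by exact_mod_cast hm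
  have hb' : (0 : ℝ) < b := by exact_mod_cast hb
  have hD : (x : ℝ) * ((m : ℝ) / b) - ((m * x + b : ℕ) : ℝ) * (1 / (b : ℝ)) = -1 := by
    push_cast
    field_simp
    ring
  refine ⟨0, g x ((m * x + b : ℕ) : ℝ), g (1 / (b : ℝ)) ((m : ℝ) / b), by simp, ?_, ?_⟩
  · apply not_collinear
    · rw [hD]; norm_num
    · push_cast
      positivity
  · apply perimeter
    rw [hD]; norm_num

/-- The index set of the triangles. -/
def S (k : ℕ) : Finset (ℕ × ℕ × ℕ) := Icc 1 k ×ˢ Icc 1 k ×ˢ Ico (k ^ 2) (2 * k ^ 2)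

lemma S_card (k : ℕ) : (S k).card = k ^ 4 := by
  simp only [S, card_product, Nat.card_Icc, Nat.card_Ico, Nat.add_sub_cancel]
  have : 2 * k ^ 2 - k ^ 2 = k ^ 2 := by omega
  rw [this]
  ring

open Classical in
/-- The point set. -/
noncomputable def P (k : ℕ) : Finset Plane :=
  insert 0 ((Icc 1 k ×ˢ Ioc (k ^ 2) (3 * k ^ 2)).image (fun p : ℕ × ℕ => g (p.1 : ℝ) (p.2 : ℝ)) ∪
    (Icc 1 k ×ˢ Ico (k ^ 2) (2 * k ^ 2)).image
      (fun p : ℕ × ℕ => g (1 / (p.2 : ℝ)) ((p.1 : ℝ) / p.2)))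

lemma P_card (k : ℕ) : (P k).card ≤ 3 * k ^ 3 + 1 := by
  classical
  unfold P
  refine (card_insert_le _ _).trans ?_
  have h1 := card_union_le
    ((Icc 1 k ×ˢ Ioc (k ^ 2) (3 * k ^ 2)).image (fun p : ℕ × ℕ => g (p.1 : ℝ) (p.2 : ℝ)))
    ((Icc 1 k ×ˢ Ico (k ^ 2) (2 * k ^ 2)).image
      (fun p : ℕ × ℕ => g (1 / (p.2 : ℝ)) ((p.1 : ℝ) / p.2)))
  have h2 : ((Icc 1 k ×ˢ Ioc (k ^ 2) (3 * k ^ 2)).image
      (fun p : ℕ × ℕ => g (p.1 : ℝ) (p.2 : ℝ))).card ≤ 2 * k ^ 3 := by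
    refine card_image_le.trans (le_of_eq ?_)
    simp only [card_product, Nat.card_Icc, Nat.card_Ioc, Nat.add_sub_cancel]
    have : 3 * k ^ 2 - k ^ 2 = 2 * k ^ 2 := by omega
    rw [this]; ring
  have h3 : ((Icc 1 k ×ˢ Ico (k ^ 2) (2 * k ^ 2)).image
      (fun p : ℕ × ℕ => g (1 / (p.2 : ℝ)) ((p.1 : ℝ) / p.2))).card ≤ k ^ 3 := by
    refine card_image_le.trans (le_of_eq ?_)
    simp only [card_product, Nat.card_Icc, Nat.card_Ico, Nat.add_sub_cancel]
    have : 2 * k ^ 2 - k ^ 2 = k ^ 2 := by omega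
    rw [this]; ring
  omega

open Classical in
/-- The triangle with a given index. -/
noncomputable def Φ (t : ℕ × ℕ × ℕ) : Finset Plane :=
  {0, g (t.1 : ℝ) ((t.2.1 * t.1 + t.2.2 : ℕ) : ℝ), g (1 / (t.2.2 : ℝ)) ((t.2.1 : ℝ) / t.2.2)}

lemma Φ_maps {k : ℕ} (t : ℕ × ℕ × ℕ) (ht : t ∈ S k) :
    Φ t ⊆ P k ∧ IsUnitTriangle (Φ t) := by
  classical
  obtain ⟨x, m, b⟩ := t
  simp only [S, mem_product, mem_Icc, mem_Ico] at ht
  obtain ⟨⟨hx1, hxk⟩, ⟨hm1, hmk⟩, hb1, hb2⟩ := ht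
  have hk : 1 ≤ k := hx1.trans hxk
  have hk2 : 1 ≤ k ^ 2 := Nat.one_le_pow _ _ hk
  have hmx : m * x ≤ k ^ 2 := by rw [sq]; exact Nat.mul_le_mul hmk hxk
  have hmx1 : 1 ≤ m * x := Nat.mul_pos hm1 hx1
  constructor
  · intro z hz
    simp only [Φ, mem_insert, mem_singleton] at hz
    unfold P
    rcases hz with rfl | rfl | rfl
    · exact mem_insert_self _ _
    · apply mem_insert_of_mem
      apply mem_union_left
      refine mem_image.2 ⟨(x, m * x + b), ?_, rfl⟩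
      simp only [mem_product, mem_Icc, mem_Ioc]
      exact ⟨⟨hx1, hxk⟩, by omega, by omega⟩
    · apply mem_insert_of_mem
      apply mem_union_right
      refine mem_image.2 ⟨(m, b), ?_, rfl⟩
      simp only [mem_product, mem_Icc, mem_Ico]
      exact ⟨⟨hm1, hmk⟩, hb1, hb2⟩
  · have := triangle (x := x) (m := m) (b := b) hx1 hm1 (hk2.trans hb1)
    unfold Φ
    convert this

lemma big {k x m b : ℕ} (hx : 1 ≤ x) (hm : 1 ≤ m) (hk : 1 ≤ k) (hb : k ^ 2 ≤ b) :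
    1 / 3 < dist (0 : Plane) (g (x : ℝ) ((m * x + b : ℕ) : ℝ)) := by
  apply g_norm_lt
  have h1 : (1 : ℝ) ≤ x := by exact_mod_cast hx
  have h2 : 2 ≤ m * x + b := by
    have : 1 ≤ m * x := Nat.mul_pos hm hx
    have : 1 ≤ k ^ 2 := Nat.one_le_pow _ _ hk
    omega
  have h2' : (2 : ℝ) ≤ ((m * x + b : ℕ) : ℝ) := by exact_mod_cast h2
  nlinarith

lemma small {k m b : ℕ} (hm : m ≤ k) (hk : 1 ≤ k) (hb : k ^ 2 ≤ b) :
    dist (0 : Plane) (g (1 / (b : ℝ)) ((m : ℝ) / b)) ≤ 1 / 3 := by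
  apply g_norm_le
  have hk' : (1 : ℝ) ≤ k := by exact_mod_cast hk
  have hm' : (m : ℝ) ≤ k := by exact_mod_cast hm
  have hm0 : (0 : ℝ) ≤ m := by positivity
  have hb' : (k : ℝ) ^ 2 ≤ b := by exact_mod_cast hb
  have hb0 : (0 : ℝ) < b := by nlinarith
  rw [div_pow, div_pow, ← add_div, div_le_iff₀ (by positivity)]
  have hb1 : (1 : ℝ) ≤ b := by nlinarith
  have h1 : (k : ℝ) ^ 2 * 1 ≤ b * b := mul_le_mul hb' hb1 zero_le_one hb0.le
  have h2 : (m : ℝ) ^ 2 ≤ k ^ 2 := by nlinarith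
  nlinarith

lemma small_pos {m b : ℕ} (hb : 1 ≤ b) :
    0 < dist (0 : Plane) (g (1 / (b : ℝ)) ((m : ℝ) / b)) := by
  apply g_pos
  have hb' : (0 : ℝ) < b := by exact_mod_cast hb
  positivity

lemma Φ_inj (k : ℕ) : Set.InjOn Φ (S k : Set (ℕ × ℕ × ℕ)) := by
  classical
  rintro ⟨x, m, b⟩ ht ⟨x', m', b'⟩ ht' h
  simp only [S, coe_product, Set.mem_prod, mem_coe, mem_Icc, mem_Ico] at ht ht'
  obtain ⟨⟨hx1, hxk⟩, ⟨hm1, hmk⟩, hb1, hb2⟩ := ht
  obtain ⟨⟨hx1', hxk'⟩, ⟨hm1', hmk'⟩, hb1', hb2'⟩ := ht'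
  have hk : 1 ≤ k := hx1.trans hxk
  have hk2 : 1 ≤ k ^ 2 := Nat.one_le_pow _ _ hk
  have B := big hx1 hm1 hk hb1
  have B' := big hx1' hm1' hk hb1'
  have L := small hmk hk hb1
  have L' := small hmk' hk hb1'
  have Lp := small_pos (m := m) (hk2.trans hb1)
  simp only [Φ] at h
  have m1 : g (x : ℝ) ((m * x + b : ℕ) : ℝ) ∈
      ({0, g (x' : ℝ) ((m' * x' + b' : ℕ) : ℝ), g (1 / (b' : ℝ)) ((m' : ℝ) / b')} : Finset Plane) := by
    rw [← h]; simp
  have m2 : g (1 / (b : ℝ)) ((m : ℝ) / b) ∈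
      ({0, g (x' : ℝ) ((m' * x' + b' : ℕ) : ℝ), g (1 / (b' : ℝ)) ((m' : ℝ) / b')} : Finset Plane) := by
    rw [← h]; simp
  simp only [mem_insert, mem_singleton] at m1 m2
  have e1 : g (x : ℝ) ((m * x + b : ℕ) : ℝ) = g (x' : ℝ) ((m' * x' + b' : ℕ) : ℝ) := by
    rcases m1 with e | e | e
    · rw [e, dist_self] at B; norm_num at B
    · exact e
    · rw [e] at B; linarith
  have e2 : g (1 / (b : ℝ)) ((m : ℝ) / b) = g (1 / (b' : ℝ)) ((m' : ℝ) / b') := by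
    rcases m2 with e | e | e
    · rw [e, dist_self] at Lp; norm_num at Lp
    · rw [e] at L; linarith
    · exact e
  have f1 := (g_inj (by positivity) (by positivity) (by positivity) (by positivity) e1).1
  have f2 := g_inj (by positivity) (by positivity) (by positivity) (by positivity) e2
  have g1 : x = x' := by exact_mod_cast f1
  have hb0 : (b : ℝ) ≠ 0 := by
    have : 1 ≤ b := hk2.trans hb1
    positivity
  have g2 : b = b' := by
    have := f2.1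
    rw [one_div, one_div, inv_inj] at this
    exact_mod_cast this
  have g3 : m = m' := by
    have := f2.2
    rw [← g2, div_left_inj' hb0] at this
    exact_mod_cast this
  rw [g1, g2, g3]

lemma main_k (k : ℕ) : k ^ 4 ≤ u (3 * k ^ 3 + 1) := by
  classical
  refine le_trans ?_ (u_mono (P_card k))
  refine le_trans ?_ (le_u (P k))
  rw [← S_card]
  unfold numUnit
  rw [← card_image_of_injOn (Φ_inj k)]
  apply card_le_card
  intro T hT
  obtain ⟨t, ht, rfl⟩ := mem_image.1 hT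
  rw [mem_filter, mem_powerset]
  exact Φ_maps t ht

lemma u_three : 1 ≤ u 3 := by
  classical
  set T : Finset Plane := {0, g (1 : ℕ) ((1 * 1 + 1 : ℕ) : ℝ), g (1 / ((1 : ℕ) : ℝ)) (((1 : ℕ) : ℝ) / (1 : ℕ))}
    with hT
  have h1 : IsUnitTriangle T := triangle le_rfl le_rfl le_rfl
  have h2 : T.card ≤ 3 := card_le_three
  refine le_trans ?_ (u_mono h2)
  refine le_trans ?_ (le_u T)
  unfold numUnit
  exact card_pos.2 ⟨T, by rw [mem_filter, mem_powerset]; exact ⟨subset_rfl, h1⟩⟩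

/-- For every `n ≥ 3`, some `n` points of the plane span at least `n ^ (4/3) / 70` triangles of
perimeter one. -/
theorem result : ∀ n : ℕ, 3 ≤ n → (n : ℝ) ^ (4 / 3 : ℝ) / 70 ≤ (u n : ℝ) := by
  intro n hn
  have hcube : ((n : ℝ) ^ (4 / 3 : ℝ)) ^ 3 = (n : ℝ) ^ 4 := by
    rw [← Real.rpow_natCast, ← Real.rpow_mul (by positivity), ← Real.rpow_natCast]
    norm_num
  have hnn : (0 : ℝ) ≤ (n : ℝ) ^ (4 / 3 : ℝ) := by positivity
  rw [div_le_iff₀ (by norm_num)]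
  rcases Nat.lt_or_ge n 4 with h4 | h4
  · have h3 : n = 3 := by omega
    subst h3
    have h1 : (1 : ℝ) ≤ u 3 := by exact_mod_cast u_three
    have h2 : ((3 : ℕ) : ℝ) ^ (4 / 3 : ℝ) ≤ 70 := by
      rw [← pow_le_pow_iff_left₀ hnn (by norm_num) (by norm_num : (3 : ℕ) ≠ 0), hcube]
      norm_num
    linarith
  · obtain ⟨k, hk1, hk2⟩ : ∃ k : ℕ, 3 * k ^ 3 + 1 ≤ n ∧ n < 3 * (k + 1) ^ 3 + 1 := by
      have h0 : 3 * (Nat.findGreatest (fun k => 3 * k ^ 3 + 1 ≤ n) n) ^ 3 + 1 ≤ n :=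
        Nat.findGreatest_spec (P := fun k => 3 * k ^ 3 + 1 ≤ n) (Nat.zero_le n) (by simp; omega)
      refine ⟨_, h0, ?_⟩
      by_contra hcon
      push Not at hcon
      have hle : Nat.findGreatest (fun k => 3 * k ^ 3 + 1 ≤ n) n + 1 ≤ n := by
        have : Nat.findGreatest (fun k => 3 * k ^ 3 + 1 ≤ n) n + 1
            ≤ (Nat.findGreatest (fun k => 3 * k ^ 3 + 1 ≤ n) n + 1) ^ 3 := Nat.le_self_pow (by norm_num) _
        omega
      have := Nat.le_findGreatest (P := fun k => 3 * k ^ 3 + 1 ≤ n) hle hcon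
      omega
    have hk : 1 ≤ k := by
      by_contra h
      have : k = 0 := by omega
      subst this
      simp at hk2
      omega
    have hu : (k : ℝ) ^ 4 ≤ u n := by
      exact_mod_cast (main_k k).trans (u_mono hk1)
    have hk' : (1 : ℝ) ≤ k := by exact_mod_cast hk
    have hn24 : (n : ℝ) ≤ 24 * k ^ 3 := by
      have h1 : n ≤ 3 * (k + 1) ^ 3 := by omega
      have h2 : (n : ℝ) ≤ 3 * ((k : ℝ) + 1) ^ 3 := by exact_mod_cast h1
      have h3 : ((k : ℝ) + 1) ^ 3 ≤ (2 * k) ^ 3 := by gcongr; linarith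
      nlinarith
    have h70 : (n : ℝ) ^ (4 / 3 : ℝ) ≤ 70 * (k : ℝ) ^ 4 := by
      rw [← pow_le_pow_iff_left₀ hnn (by positivity) (by norm_num : (3 : ℕ) ≠ 0), hcube]
      calc (n : ℝ) ^ 4 ≤ (24 * (k : ℝ) ^ 3) ^ 4 := by gcongr
        _ = 331776 * (k : ℝ) ^ 12 := by ring
        _ ≤ 343000 * (k : ℝ) ^ 12 := by gcongr; norm_num
        _ = (70 * (k : ℝ) ^ 4) ^ 3 := by ring
    linarith

end Pool.Agent.Results.MP_75315a_co.LowerBound
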